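import Pool.Agent.Q104.DiamEven

/-!
# MP_67c69b_co, Q2: a diameter-maximal 6-regular graph of diameter 4 with girth 3

The graph has 29 vertices: two roots, two copies of the vertices of `K_6`, and the edges of `K_6`,
with the triangles given by a 1-factorization of `K_6`.  Its second largest adjacency eigenvalue is
`√6`, the optimum for degree 6 and diameter 4.
-/

set_option autoImplicit false

namespace Pool.Agent.Results.MP_67c69b_co.EvenDiameter

open Pool.Agent.Q104.DiamMax Pool.Agent.Q104.DiamEven

lemma girth_eq : G.girth = 3 := by
  have a1 : G.Adj 14 15 := by decide +kernel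
  have a2 : G.Adj 15 16 := by decide +kernel
  have a3 : G.Adj 16 14 := by decide +kernel
  have hc : (SimpleGraph.Walk.cons a1 (.cons a2 (.cons a3 .nil))).IsCycle := by
    rw [SimpleGraph.Walk.cons_isCycle_iff]
    constructor
    · rw [SimpleGraph.Walk.isPath_def]
      simp
    · simp
  have hle : G.girth ≤ 3 := by
    have := SimpleGraph.girth_le_length hc
    simpa using this
  have hac : ¬ G.IsAcyclic := fun h => h _ hc
  exact le_antisymm hle (SimpleGraph.three_le_girth hac)

/-- There is a diameter-maximal `6`-regular graph of diameter `4` with girth `3` (it has 29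
vertices), outside `{D, D + 1, D + 2} = {4, 5, 6}`. -/
theorem result : ∃ (V : Type) (_ : Fintype V) (_ : DecidableEq V) (G : SimpleGraph V)
    (_ : DecidableRel G.Adj), Fintype.card V = 29 ∧ DiameterMaximal G 6 4 ∧ G.girth = 3 :=
  ⟨Fin 29, inferInstance, inferInstance, G, inferInstance, by simp, diameterMaximal, girth_eq⟩

end Pool.Agent.Results.MP_67c69b_co.EvenDiameter
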