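import Pool.Agent.Q104.DiamOdd

/-!
# MP_67c69b_co, Q1: a diameter-maximal 4-regular graph of diameter 5 with girth 4

The graph is bipartite with 34 vertices.  Its adjacency eigenvalues are `±4`, the roots of
`x⁴ - 7x² + 9` (six times), and the roots of `x⁴ - 5x² + 1` (twice); the second largest one is
`(1 + √13) / 2`, which is the optimum for degree 4 and diameter 5.
-/

set_option autoImplicit false

namespace Pool.Agent.Results.MP_67c69b_co.OddDiameter

open Pool.Agent.Q104.DiamMax Pool.Agent.Q104.DiamOdd

lemma bip {u v : Fin 17 ⊕ Fin 17} (p : G.Walk u v) : Even p.length ↔ (u.isLeft ↔ v.isLeft) := by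
  let c : G.Coloring Bool := SimpleGraph.Coloring.mk (fun u => u.isLeft) (by
    intro u v h
    rcases u with x | x <;> rcases v with y | y
    · cases h
    · simp
    · simp
    · cases h)
  exact c.even_length_iff_congr p

lemma girth_eq : G.girth = 4 := by
  have a1 : G.Adj (.inl 1) (.inr 6) := by decide +kernel
  have a2 : G.Adj (.inr 6) (.inl 6) := by decide +kernel
  have a3 : G.Adj (.inl 6) (.inr 7) := by decide +kernel
  have a4 : G.Adj (.inr 7) (.inl 1) := by decide +kernel
  have hc : (SimpleGraph.Walk.cons a1 (.cons a2 (.cons a3 (.cons a4 .nil)))).IsCycle := by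
    rw [SimpleGraph.Walk.cons_isCycle_iff]
    constructor
    · rw [SimpleGraph.Walk.isPath_def]
      simp
    · simp
  have hle : G.girth ≤ 4 := by
    have := SimpleGraph.girth_le_length hc
    simpa using this
  have hac : ¬ G.IsAcyclic := fun h => h _ hc
  obtain ⟨a, w, hw, hl⟩ := SimpleGraph.exists_girth_eq_length.2 hac
  have h3 := SimpleGraph.three_le_girth hac
  have hev : Even w.length := (bip w).2 Iff.rfl
  rw [← hl] at hev
  obtain ⟨k, hk⟩ := hev
  omega

/-- There is a diameter-maximal `4`-regular graph of diameter `5` with girth `4` (it has 34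
vertices), not `6 = D + 1`. -/
theorem result : ∃ (V : Type) (_ : Fintype V) (_ : DecidableEq V) (G : SimpleGraph V)
    (_ : DecidableRel G.Adj), Fintype.card V = 34 ∧ DiameterMaximal G 4 5 ∧ G.girth = 4 :=
  ⟨Fin 17 ⊕ Fin 17, inferInstance, inferInstance, G, inferInstance, by simp, diameterMaximal,
    girth_eq⟩

end Pool.Agent.Results.MP_67c69b_co.OddDiameter
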